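import Pool.Agent.K3h86.LP.Stm
import Pool.Agent.H442R2.KF.Inc

/-!
Brick HYP of helper86's project LP (MP_2f88e5_nt): points on the modular hyperbola.
-/

set_option autoImplicit false

namespace Pool.Agent.K3h16.LPHyp

open Finset Pool.Agent.K3h86.LP Pool.Agent.H442R2.KF

/-- the odd numbers in `(a, b]` prime to `p` -/
def MM (p a b : ℕ) : Finset ℕ := (Ioc a b).filter (fun m => m % 2 = 1 ∧ ¬ p ∣ m)

lemma odd_range (n : ℕ) : ((range n).filter (fun m => m % 2 = 1)).card = n / 2 := by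
  induction n with
  | zero => simp
  | succ n ih =>
    rw [range_add_one, filter_insert]
    split_ifs with h
    · rw [card_insert_of_notMem (by simp), ih]; omega
    · rw [ih]; omega

lemma odd_Ioc (a b : ℕ) (hab : a ≤ b) :
    ((Ioc a b).filter (fun m => m % 2 = 1)).card = (b + 1) / 2 - (a + 1) / 2 := by
  have h : (Ioc a b).filter (fun m => m % 2 = 1) =
      (range (b + 1)).filter (fun m => m % 2 = 1) \ (range (a + 1)).filter (fun m => m % 2 = 1) := by
    ext m
    simp only [mem_filter, mem_Ioc, mem_sdiff, mem_range]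
    omega
  rw [h, card_sdiff_of_subset, odd_range, odd_range]
  exact filter_subset_filter _ (range_subset_range.2 (by omega))

lemma card_MM (p a b : ℕ) (hp : p.Prime) (hab : a ≤ b) (hb : b ≤ 2 * p) :
    |((MM p a b).card : ℝ) - ((b : ℝ) - a) / 2| ≤ 2 := by
  have h1 : (MM p a b).card ≤ (b + 1) / 2 - (a + 1) / 2 := by
    rw [← odd_Ioc a b hab]
    apply card_le_card
    intro m hm
    unfold MM at hm
    rw [mem_filter] at *
    exact ⟨hm.1, hm.2.1⟩
  have h2 : (b + 1) / 2 - (a + 1) / 2 ≤ (MM p a b).card + 1 := by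
    rw [← odd_Ioc a b hab]
    refine le_trans (card_le_card (t := insert p (MM p a b)) ?_) (card_insert_le _ _)
    intro m hm
    rw [mem_insert]
    rw [mem_filter, mem_Ioc] at hm
    unfold MM
    rw [mem_filter, mem_Ioc]
    by_cases hd : p ∣ m
    · left
      obtain ⟨c, rfl⟩ := hd
      have hp0 := hp.pos
      have hc : c ≤ 2 := by
        by_contra hc
        push Not at hc
        have : p * 3 ≤ p * c := Nat.mul_le_mul_left p hc
        omega
      have hc0 : c ≠ 0 := by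
        rintro rfl
        simp at hm
      have hc2 : c ≠ 2 := by
        rintro rfl
        omega
      have : c = 1 := by omega
      rw [this, mul_one]
    · right
      exact ⟨hm.1, hm.2, hd⟩
  have h3 : 2 * (MM p a b).card ≤ (b - a) + 2 := by omega
  have h4 : (b - a) ≤ 2 * (MM p a b).card + 4 := by omega
  have h5 : (2 : ℝ) * (MM p a b).card ≤ ((b : ℝ) - a) + 2 := by
    have : ((2 * (MM p a b).card : ℕ) : ℝ) ≤ (((b - a) + 2 : ℕ) : ℝ) := by exact_mod_cast h3
    push_cast [Nat.cast_sub hab] at this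
    linarith
  have h6 : ((b : ℝ) - a) ≤ 2 * (MM p a b).card + 4 := by
    have : (((b - a) : ℕ) : ℝ) ≤ ((2 * (MM p a b).card + 4 : ℕ) : ℝ) := by exact_mod_cast h4
    push_cast [Nat.cast_sub hab] at this
    linarith
  rw [abs_le]
  constructor <;> linarith

lemma card_HH (d L : ℕ) (hd : 1 ≤ d) :
    |(((L / d + 1) / 2 : ℕ) : ℝ) - (L : ℝ) / (2 * d)| ≤ 1 := by
  have hd' : (0 : ℝ) < d := by exact_mod_cast hd
  have h1 : d * (2 * ((L / d + 1) / 2)) ≤ L + d := by
    have : 2 * ((L / d + 1) / 2) ≤ L / d + 1 := by omega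
    calc d * (2 * ((L / d + 1) / 2)) ≤ d * (L / d + 1) := Nat.mul_le_mul_left _ this
      _ = d * (L / d) + d := by ring
      _ ≤ L + d := by
        have := Nat.mul_div_le L d
        omega
  have h2 : L ≤ d * (2 * ((L / d + 1) / 2) + 1) := by
    have h3 : L / d ≤ 2 * ((L / d + 1) / 2) := by omega
    have h4 := Nat.lt_mul_div_succ L hd
    calc L ≤ d * (L / d + 1) := h4.le
      _ ≤ _ := Nat.mul_le_mul_left _ (by omega)
  have h5 : (d : ℝ) * (2 * (((L / d + 1) / 2 : ℕ) : ℝ)) ≤ L + d := by exact_mod_cast h1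
  have h6 : (L : ℝ) ≤ d * (2 * (((L / d + 1) / 2 : ℕ) : ℝ) + 1) := by exact_mod_cast h2
  rw [abs_le]
  constructor
  · rw [neg_le_sub_iff_le_add, div_le_iff₀ (by positivity)]
    nlinarith
  · rw [sub_le_iff_le_add, ← sub_le_iff_le_add', le_div_iff₀ (by positivity)]
    nlinarith

/-- the number of `m` with `d m u = 1` -/
noncomputable def cnt (p a b d : ℕ) (u : ZMod p) : ℕ :=
  ((MM p a b).filter (fun m : ℕ => ((d * m : ℕ) : ZMod p) * u = 1)).card

lemma count_eq (p a b d L : ℕ) (hp : p.Prime) (h3 : 3 ≤ p) (hd : 1 ≤ d) (hdc : d.Coprime (2 * p)) :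
    (((Ioc a b) ×ˢ (Icc 1 L)).filter (fun x => d ∣ x.2 ∧ x.1 * x.2 ≡ 1 [MOD 2 * p])).card =
      ∑ k ∈ range ((L / d + 1) / 2), cnt p a b d (((1 + 2 * k : ℤ)) : ZMod p) := by
  have hcop : Nat.Coprime 2 p := (Nat.coprime_primes Nat.prime_two hp).2 (by omega)
  have hd2 : d % 2 = 1 := by
    have : Nat.Coprime d 2 := hdc.coprime_dvd_right (dvd_mul_right 2 p)
    have h := this.odd_of_right
    rcases h with ⟨c, hc⟩
    omega
  have key : ∀ m l : ℕ, (m * l ≡ 1 [MOD 2 * p]) ↔ (m * l % 2 = 1 ∧ ((m * l : ℕ) : ZMod p) = 1) := by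
    intro m l
    rw [← Nat.modEq_and_modEq_iff_modEq_mul hcop]
    constructor
    · rintro ⟨h1, h2⟩
      refine ⟨h1, ?_⟩
      have := (ZMod.natCast_eq_natCast_iff _ _ _).2 h2
      rw [this, Nat.cast_one]
    · rintro ⟨h1, h2⟩
      refine ⟨h1, ?_⟩
      apply (ZMod.natCast_eq_natCast_iff _ _ _).1
      rw [h2, Nat.cast_one]
  have h1 : ∑ k ∈ range ((L / d + 1) / 2), cnt p a b d (((1 + 2 * k : ℤ)) : ZMod p) =
      (((MM p a b) ×ˢ (range ((L / d + 1) / 2))).filter (fun x =>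
        ((d * x.1 : ℕ) : ZMod p) * (((1 + 2 * (x.2 : ℤ) : ℤ)) : ZMod p) = 1)).card := by
    rw [card_filter, sum_product_right]
    apply sum_congr rfl
    intro k _
    unfold cnt
    rw [card_filter]
  rw [h1]
  refine card_nbij' (fun x => (x.1, (x.2 / d - 1) / 2)) (fun x => (x.1, d * (1 + 2 * x.2))) ?_ ?_ ?_ ?_
  · rintro ⟨m, l⟩ hx
    rw [mem_coe, mem_filter, mem_product, mem_Ioc, mem_Icc] at hx
    obtain ⟨⟨hm, hl⟩, hdl, hml⟩ := hx
    simp only at hm hl hdl hml
    obtain ⟨n, rfl⟩ := hdl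
    rw [key] at hml
    obtain ⟨e1, e2⟩ := hml
    have hm1 : m % 2 = 1 := by
      by_contra hne
      have h0 : m % 2 = 0 := by omega
      rw [Nat.mul_mod, h0] at e1
      simp at e1
    have hn1 : n % 2 = 1 := by
      by_contra hne
      have h0 : n % 2 = 0 := by omega
      rw [Nat.mul_mod, Nat.mul_mod d n, h0] at e1
      simp at e1
    have hpm : ¬ p ∣ m := by
      intro hpm
      have : Fact p.Prime := ⟨hp⟩
      have h0 : ((m * (d * n) : ℕ) : ZMod p) = 0 := by
        rw [ZMod.natCast_eq_zero_iff]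
        exact dvd_mul_of_dvd_left hpm _
      rw [h0] at e2
      exact zero_ne_one e2
    have hnd : d * n / d = n := Nat.mul_div_cancel_left n hd
    have hnL : n ≤ L / d := by
      rw [Nat.le_div_iff_mul_le hd]
      linarith [hl.2, mul_comm d n]
    rw [mem_coe, mem_filter, mem_product]
    simp only [hnd]
    refine ⟨⟨?_, ?_⟩, ?_⟩
    · unfold MM
      rw [mem_filter, mem_Ioc]
      exact ⟨hm, hm1, hpm⟩
    · rw [mem_range]
      omega
    · have h5 : (1 + 2 * (((n - 1) / 2 : ℕ) : ℤ) : ℤ) = (n : ℤ) := by omega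
      rw [h5, Int.cast_natCast, ← Nat.cast_mul]
      rw [show d * m * n = m * (d * n) by ring]
      exact e2
  · rintro ⟨m, k⟩ hx
    rw [mem_coe, mem_filter, mem_product] at hx
    obtain ⟨⟨hm, hk⟩, e⟩ := hx
    simp only at hm hk e
    unfold MM at hm
    rw [mem_filter, mem_Ioc] at hm
    rw [mem_range] at hk
    rw [mem_coe, mem_filter, mem_product, mem_Ioc, mem_Icc]
    simp only
    refine ⟨⟨hm.1, ?_, ?_⟩, dvd_mul_right _ _, ?_⟩
    · exact Nat.mul_pos hd (by omega)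
    · calc d * (1 + 2 * k) ≤ d * (L / d) := Nat.mul_le_mul_left _ (by omega)
        _ ≤ L := Nat.mul_div_le L d
    · rw [key]
      constructor
      · rw [Nat.mul_mod, Nat.mul_mod d, hm.2.1, hd2]
        omega
      · rw [← e]
        push_cast
        ring
  · rintro ⟨m, l⟩ hx
    rw [mem_coe, mem_filter, mem_product, mem_Ioc, mem_Icc] at hx
    obtain ⟨⟨hm, hl⟩, hdl, hml⟩ := hx
    simp only at hm hl hdl hml
    obtain ⟨n, rfl⟩ := hdl
    rw [key] at hml
    obtain ⟨e1, e2⟩ := hml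
    have hn1 : n % 2 = 1 := by
      by_contra hne
      have h0 : n % 2 = 0 := by omega
      rw [Nat.mul_mod, Nat.mul_mod d n, h0] at e1
      simp at e1
    have hnd : d * n / d = n := Nat.mul_div_cancel_left n hd
    simp only [hnd]
    have : 1 + 2 * ((n - 1) / 2) = n := by omega
    rw [this]
  · rintro ⟨m, k⟩ hx
    simp only
    have hnd : d * (1 + 2 * k) / d = 1 + 2 * k := Nat.mul_div_cancel_left _ hd
    rw [hnd]
    have : (1 + 2 * k - 1) / 2 = k := by omega
    rw [this]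

lemma fourier (p a b d : ℕ) (hp : p.Prime) (h3 : 3 ≤ p) (hab : a < b) (hb : b ≤ 2 * p)
    (hdc : d.Coprime (2 * p)) [NeZero p] (w : ZMod p) :
    ‖∑ u : ZMod p, ZMod.stdAddChar (-(u * w)) *
      ((cnt p a b d u : ℂ) - ((MM p a b).card : ℂ) / p)‖ ≤ 8 * Real.sqrt p * Real.log p := by
  have : Fact p.Prime := ⟨hp⟩
  have hp0 : (0 : ℝ) < p := by exact_mod_cast hp.pos
  have hpc : (p : ℂ) ≠ 0 := by exact_mod_cast hp.ne_zero
  have hlog : 1 ≤ Real.log p := by
    rw [Real.le_log_iff_exp_le hp0]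
    have h1 : (3 : ℝ) ≤ p := by exact_mod_cast h3
    linarith [Real.exp_one_lt_d9]
  have hd0 : (d : ZMod p) ≠ 0 := by
    rw [Ne, ZMod.natCast_eq_zero_iff]
    intro h
    have h1 : p ∣ Nat.gcd d (2 * p) := Nat.dvd_gcd h (dvd_mul_left p 2)
    rw [hdc] at h1
    exact hp.one_lt.ne' (Nat.dvd_one.1 h1)
  have hm0 : ∀ m ∈ MM p a b, (m : ZMod p) ≠ 0 := by
    intro m hm
    unfold MM at hm
    rw [mem_filter] at hm
    rw [Ne, ZMod.natCast_eq_zero_iff]
    exact hm.2.2
  have h1 : ∑ u : ZMod p, ZMod.stdAddChar (-(u * w)) * ((cnt p a b d u : ℂ)) =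
      ∑ m ∈ MM p a b, (ZMod.stdAddChar (-w * (d : ZMod p)⁻¹ * (m : ZMod p)⁻¹) : ℂ) := by
    have h2 : ∀ u : ZMod p, ZMod.stdAddChar (-(u * w)) * ((cnt p a b d u : ℂ)) =
        ∑ m ∈ MM p a b, if ((d * m : ℕ) : ZMod p) * u = 1 then (ZMod.stdAddChar (-(u * w)) : ℂ) else 0 := by
      intro u
      unfold cnt
      rw [card_filter]
      push_cast
      rw [mul_sum]
      apply sum_congr rfl
      intro m _
      split_ifs <;> simp
    simp_rw [h2]
    rw [sum_comm]
    apply sum_congr rfl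
    intro m hm
    have hdm : ((d * m : ℕ) : ZMod p) ≠ 0 := by
      rw [Nat.cast_mul]
      exact mul_ne_zero hd0 (hm0 m hm)
    rw [sum_eq_single ((((d * m : ℕ) : ZMod p))⁻¹)]
    · rw [if_pos (mul_inv_cancel₀ hdm)]
      congr 1
      rw [Nat.cast_mul, mul_inv]
      ring
    · intro u _ hu
      rw [if_neg]
      intro h
      apply hu
      apply eq_inv_of_mul_eq_one_left
      rw [mul_comm]
      exact h
    · intro h
      exact absurd (mem_univ _) h
  have h2 : ∑ u : ZMod p, ZMod.stdAddChar (-(u * w)) * (((MM p a b).card : ℂ) / p) =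
      if w = 0 then ((MM p a b).card : ℂ) else 0 := by
    rw [← sum_mul]
    have h4 := AddChar.sum_mulShift (-w) (ZMod.isPrimitive_stdAddChar p)
    have h5 : ∑ u : ZMod p, (ZMod.stdAddChar (-(u * w)) : ℂ) =
        ∑ u : ZMod p, (ZMod.stdAddChar (u * -w) : ℂ) := by
      apply sum_congr rfl
      intro u _
      congr 1
      ring
    rw [h5, h4]
    by_cases hw : w = 0
    · rw [if_pos (by rw [hw, neg_zero]), if_pos hw, ZMod.card]
      field_simp
    · rw [if_neg (by rwa [neg_eq_zero]), if_neg hw]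
      simp
  simp_rw [mul_sub]
  rw [sum_sub_distrib, h1, h2]
  by_cases hw : w = 0
  · rw [if_pos hw, hw]
    simp only [neg_zero, zero_mul, AddChar.map_zero_eq_one, sum_const, nsmul_eq_mul, mul_one, sub_self,
      norm_zero]
    positivity
  rw [if_neg hw, sub_zero]
  set c : ℤ := (((-w * (d : ZMod p)⁻¹).val : ℕ) : ℤ) with hc
  have hcc : (c : ZMod p) = -w * (d : ZMod p)⁻¹ := by
    rw [hc, Int.cast_natCast, ZMod.natCast_zmod_val]
  have hcu : Int.gcd c p = 1 := by
    have hunit : Int.gcd c p = 1 ↔ IsUnit (c : ZMod p) := by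
      rw [ZMod.coe_int_isUnit_iff_isCoprime, isCoprime_comm, Int.isCoprime_iff_gcd_eq_one]
    rw [hunit, hcc]
    exact (mul_ne_zero (neg_ne_zero.2 hw) (inv_ne_zero hd0)).isUnit
  have h4 : ∑ m ∈ MM p a b, (ZMod.stdAddChar (-w * (d : ZMod p)⁻¹ * (m : ZMod p)⁻¹) : ℂ) =
      ∑ m ∈ (Icc ((a : ℤ) + 1) b).filter (fun m : ℤ => m ≡ 1 [ZMOD (2 : ℕ)] ∧ Int.gcd m p = 1),
        kf c m p := by
    refine sum_nbij' (fun m : ℕ => (m : ℤ)) (fun m : ℤ => m.toNat) ?_ ?_ ?_ ?_ ?_
    · intro m hm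
      unfold MM at hm
      rw [mem_filter, mem_Ioc] at hm
      rw [mem_filter, mem_Icc]
      refine ⟨⟨by omega, by omega⟩, ?_, ?_⟩
      · show (m : ℤ) % ((2 : ℕ) : ℤ) = 1 % ((2 : ℕ) : ℤ)
        omega
      · rw [Int.gcd_natCast_natCast]
        exact ((Nat.Prime.coprime_iff_not_dvd hp).2 hm.2.2).symm
    · intro m hm
      rw [mem_filter, mem_Icc] at hm
      obtain ⟨⟨hA, hB⟩, e1, e2⟩ := hm
      have e1' : m % ((2 : ℕ) : ℤ) = 1 % ((2 : ℕ) : ℤ) := e1
      lift m to ℕ using (by omega) with n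
      unfold MM
      rw [mem_filter, mem_Ioc]
      simp only [Int.toNat_natCast]
      refine ⟨⟨by omega, by omega⟩, by omega, ?_⟩
      rw [Int.gcd_natCast_natCast] at e2
      intro h
      have h5 : p ∣ Nat.gcd n p := Nat.dvd_gcd h (dvd_refl p)
      rw [e2] at h5
      exact hp.one_lt.ne' (Nat.dvd_one.1 h5)
    · intro m _
      simp
    · intro m hm
      rw [mem_filter, mem_Icc] at hm
      show ((m.toNat : ℕ) : ℤ) = m
      rw [Int.toNat_of_nonneg (by omega)]
    · intro m _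
      rw [kf_eq_char, hcc, Int.cast_natCast]
  rw [h4]
  have h5 := incomplete p 2 hp.squarefree hp.pos (by norm_num)
    ((Nat.coprime_primes hp Nat.prime_two).2 (by omega)) c hcu 1 ((a : ℤ) + 1) b (by omega)
  refine h5.trans ?_
  rw [hp.primeFactors, card_singleton, pow_one]
  have hsq : 0 ≤ Real.sqrt p := Real.sqrt_nonneg _
  have h6 : (((b : ℤ) : ℝ) - (((a : ℤ) + 1 : ℤ) : ℝ)) / (((2 : ℕ) : ℝ) * p) ≤ 1 := by
    rw [div_le_one (by positivity)]
    have : (b : ℝ) ≤ 2 * p := by exact_mod_cast hb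
    have h0 : (0 : ℝ) ≤ a := Nat.cast_nonneg _
    push_cast
    linarith
  calc 2 * Real.sqrt p * ((((b : ℤ) : ℝ) - (((a : ℤ) + 1 : ℤ) : ℝ)) / (((2 : ℕ) : ℝ) * p) + 2 + Real.log p) ≤
      2 * Real.sqrt p * (4 * Real.log p) := by
        apply mul_le_mul_of_nonneg_left _ (by positivity)
        linarith
    _ = 8 * Real.sqrt p * Real.log p := by ring

/-- brick HYP -/
theorem t_HYP : HYP := by
  refine ⟨30, by norm_num, ?_⟩
  intro p hp h3 a b d L hab hb hd hdc
  have hp0 : (0 : ℝ) < p := by exact_mod_cast hp.pos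
  have hp3 : (3 : ℝ) ≤ p := by exact_mod_cast h3
  have hd0 : (0 : ℝ) < d := by exact_mod_cast hd
  have hlog : 1 ≤ Real.log p := by
    rw [Real.le_log_iff_exp_le hp0]
    linarith [Real.exp_one_lt_d9]
  have hsq : 1 ≤ Real.sqrt p := by
    rw [Real.one_le_sqrt]
    linarith
  have hL0 : (0 : ℝ) ≤ (L : ℝ) / (p * d) := by positivity
  have hlog2 : Real.log p ≤ (Real.log p) ^ 2 := by nlinarith
  rcases hab.eq_or_lt with heq | hlt
  · subst heq
    have h0 : (((Ioc a a) ×ˢ (Icc 1 L)).filter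
        (fun x => d ∣ x.2 ∧ x.1 * x.2 ≡ 1 [MOD 2 * p])).card = 0 := by
      simp
    rw [h0]
    simp only [Nat.cast_zero, sub_self, zero_mul, zero_div, abs_zero]
    positivity
  · have : NeZero p := ⟨hp.ne_zero⟩
    set H : ℕ := (L / d + 1) / 2 with hH
    have hcount := count_eq p a b d L hp h3 hd hdc
    have hcomp := Inc.completion p 2 ((Nat.coprime_primes hp Nat.prime_two).2 (by omega))
      (fun u => (cnt p a b d u : ℂ) - ((MM p a b).card : ℂ) / p) (8 * Real.sqrt p * Real.log p)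
      (by positivity) (fun w => fourier p a b d hp h3 hlt hb hdc w) 1 H
    have hHb := card_HH d L hd
    rw [← hH] at hHb hcount
    have hMb := card_MM p a b hp hab hb
    set Mc : ℝ := ((MM p a b).card : ℝ) with hMc
    have hs : ∑ k ∈ range H, ((cnt p a b d (((1 + ((2 : ℕ) : ℤ) * k : ℤ)) : ZMod p) : ℂ) -
        ((MM p a b).card : ℂ) / p) =
        (((((((Ioc a b) ×ˢ (Icc 1 L)).filter
          (fun x => d ∣ x.2 ∧ x.1 * x.2 ≡ 1 [MOD 2 * p])).card : ℝ) - H * Mc / p) : ℝ) : ℂ) := by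
      rw [hcount, sum_sub_distrib, sum_const, card_range, nsmul_eq_mul]
      push_cast
      rw [hMc]
      push_cast
      ring
    rw [hs, Complex.norm_real, Real.norm_eq_abs] at hcomp
    set N : ℝ := (((((Ioc a b) ×ˢ (Icc 1 L)).filter
          (fun x => d ∣ x.2 ∧ x.1 * x.2 ≡ 1 [MOD 2 * p])).card : ℕ) : ℝ) with hN
    set X : ℝ := (L : ℝ) / (p * d) with hX
    have hLd : (L : ℝ) / (2 * d) = X * p / 2 := by
      rw [hX]
      field_simp
    rw [hLd] at hHb
    have hH0 : (0 : ℝ) ≤ H := Nat.cast_nonneg _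
    obtain ⟨hH1, hH2⟩ := abs_le.1 hHb
    have hHp : (H : ℝ) / p ≤ X / 2 + 1 := by
      rw [div_le_iff₀ hp0]
      nlinarith
    have e1 : |N - H * Mc / p| ≤ 24 * Real.sqrt p * (Real.log p) ^ 2 * (1 + X) := by
      refine hcomp.trans ?_
      have h7 : (H : ℝ) / p + 1 + Real.log p ≤ 3 * Real.log p * (1 + X) := by
        nlinarith
      calc 8 * Real.sqrt p * Real.log p * ((H : ℝ) / p + 1 + Real.log p) ≤
          8 * Real.sqrt p * Real.log p * (3 * Real.log p * (1 + X)) :=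
            mul_le_mul_of_nonneg_left h7 (by positivity)
        _ = _ := by ring
    have e2 : |H * Mc / p - ((b : ℝ) - a) * L / (4 * p * d)| ≤ 3 * (1 + X) := by
      have h8 : ((b : ℝ) - a) * L / (4 * p * d) = ((b : ℝ) - a) / 2 * (X * p / 2) / p := by
        rw [hX]
        field_simp
        ring
      rw [h8, ← sub_div, abs_div, abs_of_pos hp0, div_le_iff₀ hp0]
      have h9 : (H : ℝ) * Mc - ((b : ℝ) - a) / 2 * (X * p / 2) =
          H * (Mc - ((b : ℝ) - a) / 2) + ((b : ℝ) - a) / 2 * (H - X * p / 2) := by ring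
      have hab' : (a : ℝ) ≤ b := by exact_mod_cast hab
      have hb' : (b : ℝ) ≤ 2 * p := by exact_mod_cast hb
      have ha0 : (0 : ℝ) ≤ a := Nat.cast_nonneg _
      rw [h9]
      calc |(H : ℝ) * (Mc - ((b : ℝ) - a) / 2) + ((b : ℝ) - a) / 2 * (H - X * p / 2)| ≤
          |(H : ℝ) * (Mc - ((b : ℝ) - a) / 2)| + |((b : ℝ) - a) / 2 * (H - X * p / 2)| := abs_add_le _ _
        _ = H * |Mc - ((b : ℝ) - a) / 2| + ((b : ℝ) - a) / 2 * |H - X * p / 2| := by
            rw [abs_mul, abs_mul, abs_of_nonneg hH0, abs_of_nonneg (by linarith : 0 ≤ ((b : ℝ) - a) / 2)]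
        _ ≤ H * 2 + p * 1 := by
            apply add_le_add
            · exact mul_le_mul_of_nonneg_left hMb hH0
            · apply mul_le_mul (by linarith) hHb (abs_nonneg _) hp0.le
        _ ≤ 3 * (1 + X) * p := by nlinarith
    have e3 : 3 * (1 + X) ≤ 6 * Real.sqrt p * (Real.log p) ^ 2 * (1 + X) := by
      apply mul_le_mul_of_nonneg_right _ (by linarith)
      nlinarith
    calc |N - ((b : ℝ) - a) * L / (4 * p * d)| =
        |(N - H * Mc / p) + (H * Mc / p - ((b : ℝ) - a) * L / (4 * p * d))| := by ring_nf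
      _ ≤ |N - H * Mc / p| + |H * Mc / p - ((b : ℝ) - a) * L / (4 * p * d)| := abs_add_le _ _
      _ ≤ 24 * Real.sqrt p * (Real.log p) ^ 2 * (1 + X) +
          6 * Real.sqrt p * (Real.log p) ^ 2 * (1 + X) := add_le_add e1 (e2.trans e3)
      _ = 30 * Real.sqrt p * (Real.log p) ^ 2 * (1 + X) := by ring

end Pool.Agent.K3h16.LPHyp
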